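import Mathlib
import Pool.Agent.R325.CofDefs
import Pool.Agent.R325.CofMain
import Pool.Agent.R325.CofEx

set_option autoImplicit false

namespace Pool.Agent.Results.MP_9cf723_co.ConeBetti

open Pool.Agent.R325.Cof

/-- Full answer to Q1.  Coning preserves the Betti numbers in degrees `-1, 0, 1` of every cofactor
complex (`j = i + 1 ≤ 2`); in degree `2` (`j = 3`) it never decreases them, and it preserves them
if and only if every 2-simplex is placed at affinely independent points.  In particular the
equality asked for in Q1 fails for a suitable degenerate configuration, for every `s`. -/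
theorem result :
    (∀ (V : Type) [Fintype V] [LinearOrder V] (K : Finset (Finset V)) (w : V)
      (p : V → Fin 3 → ℝ) (s : ℕ), IsComplex K → (∀ v, w ≤ v) → (∀ ψ ∈ K, w ∉ ψ) →
      General K w p →
      (∀ j, j ≤ 2 → betti (cone w K) p (s + 1) j = betti K p s j) ∧
      betti K p s 3 ≤ betti (cone w K) p (s + 1) 3 ∧
      (betti (cone w K) p (s + 1) 3 = betti K p s 3 ↔ Nondeg K p)) ∧
    (∃ (K : Finset (Finset (Fin 4))) (p : Fin 4 → Fin 3 → ℝ), IsComplex K ∧
      (∃ σ ∈ K, σ.card = 3) ∧ (∀ v : Fin 4, 0 ≤ v) ∧ (∀ ψ ∈ K, 0 ∉ ψ) ∧ General K 0 p ∧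
      ∀ s : ℕ, betti (cone 0 K) p (s + 1) 3 ≠ betti K p s 3) := by
  refine ⟨fun V _ _ K w p s hK hw hwK hG => main hK hw hwK hG s,
    K0, p0, K0_complex, ⟨{1, 2, 3}, by simp [K0], by decide⟩, fun v => Fin.zero_le v, K0_zero,
    p0_general, fun s h => ?_⟩
  exact K0_not_nondeg
    (((main K0_complex (fun v => Fin.zero_le v) K0_zero p0_general s).2.2).mp h)

end Pool.Agent.Results.MP_9cf723_co.ConeBetti
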